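import Pool.Agent.Helper57.SJ.Stmts
import Pool.Agent.Helper3.SI.LOW
import Pool.Agent.Helper63.SI.LB

/-!
# Almost every interval contains a point with the phase `α`, intervals up to a power of `T`
-/

set_option autoImplicit false

namespace Pool.Agent.Helper44.SJ

open MeasureTheory Set Filter Topology
open Pool.Agent.Helper57.QZ (Pr tor circ aa Zy Wy Sy Vy Ky pt lin Good zA Pz)
open Pool.Agent.Helper57.SI (wsup P1 P2 fej fc gc Kk zz ZZ ww D1 D2 tl wt)
open Pool.Agent.Helper57.SJ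
open Pool.Agent.Helper3.SI (Gj Gj_cont Gj_lin pointwise rpow_small zz_large wt_nonneg wt_lin
  lin_cont ww_cont D1_cont D2_cont D1_nonneg D2_nonneg log_pr)

/-- the sum over the primes -/
theorem lowt_sum (C : ℝ)
    (hC : ∀ y x : ℕ, 1 ≤ x → ∑ p : Pr y, (if x < (p : ℕ) then
      ((1 + Real.log ((p : ℕ) : ℝ)) ^ 2 / ((p : ℕ) : ℝ)) ^ 2 else 0) ≤
        C * (x : ℝ) ^ (-(1 - (1 / 2 : ℝ))))
    (j : ℕ) (hj : j ≤ 1) (y z : ℕ) (hz : 1 ≤ z) :
    ∑ p : Pr y, (if z < (p : ℕ) then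
      (Real.log ((p : ℕ) : ℝ) ^ j / ((p : ℕ) : ℝ)) ^ 2 else 0) ≤
      C * (z : ℝ) ^ (-(1 - (1 / 2 : ℝ))) := by
  refine le_trans (Finset.sum_le_sum fun p _ => ?_) (hC y z hz)
  split_ifs with h
  · have hp : (0 : ℝ) ≤ ((p : ℕ) : ℝ) := Nat.cast_nonneg _
    have hl := log_pr y p
    have e : Real.log ((p : ℕ) : ℝ) ^ j ≤ (1 + Real.log ((p : ℕ) : ℝ)) ^ 2 := by
      interval_cases j
      · rw [pow_zero]; nlinarith
      · rw [pow_one]; nlinarith
    have e0 : 0 ≤ Real.log ((p : ℕ) : ℝ) ^ j := pow_nonneg hl j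
    exact pow_le_pow_left₀ (div_nonneg e0 hp) (div_le_div_of_nonneg_right e hp) 2
  · exact le_rfl

/-- the choice of `H₀` -/
theorem lowt_H : ∃ H₀ : ℝ, ∀ H : ℝ, H₀ ≤ H → 3 ≤ H ∧ 3 ≤ Kk H ∧ 0 ≤ Real.log H ∧
    (zz H : ℝ) ≤ Real.log H / (8 * Kk H) := by
  have hL : Tendsto (fun H : ℝ => Real.log H) atTop atTop := Real.tendsto_log_atTop
  have hLL : Tendsto (fun H : ℝ => Real.log (Real.log H)) atTop atTop := hL.comp hL
  obtain ⟨H₀, hH⟩ := eventually_atTop.1 ((hLL.eventually_ge_atTop 3).and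
    ((hL.eventually_ge_atTop 1).and (eventually_ge_atTop (3 : ℝ))))
  refine ⟨H₀, fun H h => ?_⟩
  obtain ⟨a1, a2, a3⟩ := hH H h
  have hK : (3 : ℝ) ≤ (Kk H : ℝ) := by
    unfold Kk
    exact le_trans a1 (Nat.le_ceil _)
  have hK' : 3 ≤ Kk H := by exact_mod_cast hK
  refine ⟨a3, hK', by linarith, ?_⟩
  unfold zz
  exact Nat.floor_le (by positivity)

/-- the choice of `T₀` -/
theorem lowt_T (κ b A : ℝ) (hκ : 0 < κ) (hb : 0 < b) : ∃ T₀ : ℝ, 4 ≤ T₀ ∧ ∀ T : ℝ, T₀ ≤ T →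
    1 ≤ Real.log T ∧ 12 / κ ≤ T ^ (1 / 2 : ℝ) ∧ 3 ≤ T ^ (1 / 2 : ℝ) ∧
    Real.log T ^ (3 * A) ≤ b * T ^ (3 / 4 : ℝ) := by
  have hL : Tendsto (fun H : ℝ => Real.log H) atTop atTop := Real.tendsto_log_atTop
  have h1 : Tendsto (fun T : ℝ => T ^ (1 / 2 : ℝ)) atTop atTop :=
    tendsto_rpow_atTop (by norm_num)
  have h2 := (isLittleO_log_rpow_rpow_atTop (3 * A) (show (0 : ℝ) < 3 / 4 by norm_num)).def hb
  obtain ⟨T₀, hT⟩ := eventually_atTop.1 ((hL.eventually_ge_atTop 1).and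
    ((h1.eventually_ge_atTop (12 / κ)).and ((h1.eventually_ge_atTop 3).and
    (h2.and (eventually_ge_atTop (4 : ℝ))))))
  refine ⟨max T₀ 4, le_max_right _ _, fun T h => ?_⟩
  obtain ⟨a1, a2, a3, a4, a5⟩ := hT T (le_trans (le_max_left _ _) h)
  refine ⟨a1, a2, a3, ?_⟩
  have e1 : 0 ≤ Real.log T ^ (3 * A) := Real.rpow_nonneg (by linarith) _
  have e2 : 0 ≤ T ^ (3 / 4 : ℝ) := Real.rpow_nonneg (by linarith) _
  rw [Real.norm_of_nonneg e1, Real.norm_of_nonneg e2] at a4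
  exact a4

/-- the size of the error term -/
theorem lowt_E {z K : ℕ} {H T : ℝ} (hK : 3 ≤ K) (hz : (z : ℝ) ≤ Real.log H / (8 * K))
    (hH : 3 ≤ H) (hHT : H ≤ T ^ (1 / 2 : ℝ)) (hT : 4 ≤ T) :
    (4 : ℝ) ^ (K * z) * (2 * K + 1) ^ z ≤ T ^ (1 / 4 : ℝ) := by
  have h1 : (4 : ℝ) ^ (K * z) * (2 * K + 1) ^ z ≤ 4 ^ ((K + 1) * z) * (2 * K + 3) ^ z := by
    refine mul_le_mul ?_ ?_ (by positivity) (by positivity)
    · exact pow_le_pow_right₀ (by norm_num) (Nat.mul_le_mul_right z (Nat.le_succ K))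
    · exact pow_le_pow_left₀ (by positivity) (by linarith) z
  have h2 := Pool.Agent.Helper63.SI.E_le hK hz
  have hT0 : (0 : ℝ) < T := by linarith
  have h3 : Real.log H ≤ 1 / 2 * Real.log T := by
    have := Real.log_le_log (by linarith) hHT
    rwa [Real.log_rpow hT0] at this
  have hlT : 0 ≤ Real.log T := Real.log_nonneg (by linarith)
  refine le_trans h1 (le_trans h2 ?_)
  rw [Real.rpow_def_of_pos hT0]
  apply Real.exp_le_exp.2
  linarith

theorem st_LOWT (h1 : Pool.Agent.Helper57.SI.ST_FJ0) (h2 : Pool.Agent.Helper57.SI.ST_LB)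
    (h3 : ST_TWT) (h4 : Pool.Agent.Helper57.SI.ST_TSQ) (h5 : ST_MK2) : ST_LOWT := by
  intro η hη κ hκ A hA
  obtain ⟨C, hC0, hC⟩ := h4 (1 / 2) ⟨by norm_num, by norm_num⟩
  obtain ⟨H₁, hLB⟩ := h2 η hη.1
  have hη0 : 0 < η := hη.1
  obtain ⟨s, hs⟩ : ∃ s : ℝ, s = κ * η ^ 2 / 400 := ⟨_, rfl⟩
  have hs0 : 0 < s := by rw [hs]; positivity
  obtain ⟨H₂, hz⟩ := zz_large (max 2 ((C / s) ^ 2))
  obtain ⟨H₃, hH3⟩ := lowt_H
  obtain ⟨T₀, hT4, hT₀⟩ := lowt_T κ (κ * η ^ 2 / 400) A hκ (by positivity)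
  refine ⟨max (max H₁ H₂) (max H₃ 3), T₀, le_trans (le_max_right _ _) (le_max_right _ _), hT4,
    fun T hT H hH hHT => ?_⟩
  have hHH1 : H₁ ≤ H := le_trans (le_trans (le_max_left _ _) (le_max_left _ _)) hH
  have hHH2 : H₂ ≤ H := le_trans (le_trans (le_max_right _ _) (le_max_left _ _)) hH
  have hHH3 : H₃ ≤ H := le_trans (le_trans (le_max_left _ _) (le_max_right _ _)) hH
  obtain ⟨b1, b2, b3, b4⟩ := hH3 H hHH3
  obtain ⟨t1, t2, t3, t4⟩ := hT₀ T hT
  have hT4' : 4 ≤ T := le_trans hT4 hT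
  have hT0 : 0 < T := by linarith
  obtain ⟨hz2, hK⟩ := hz H hHH2
  have hz2' : (2 : ℝ) ≤ (zz H : ℝ) := le_trans (le_max_left _ _) hz2
  have hzC : (C / s) ^ 2 ≤ (zz H : ℝ) := le_trans (le_max_right _ _) hz2
  have hz1 : 1 ≤ zz H := by
    have : (1 : ℝ) ≤ (zz H : ℝ) := by linarith
    exact_mod_cast this
  have hL : 0 < Real.log (zz H) := Real.log_pos (by linarith)
  have hsm := rpow_small C s (zz H) hC0 hs0 hz1 hzC
  have hE := lowt_E b2 b4 b1 hHT hT4'
  -- `zz H ≤ zA A T`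
  have hT12 : T ^ (1 / 2 : ℝ) * T ^ (1 / 2 : ℝ) = T := by
    rw [← Real.rpow_add hT0]
    norm_num
  have hHT2 : H ≤ T := by
    have : 1 ≤ T ^ (1 / 2 : ℝ) := by linarith
    nlinarith
  have hzy : zz H ≤ zA A T := by
    unfold zA
    apply Nat.le_floor
    have c1 : Real.log H / (8 * (Kk H : ℝ)) ≤ Real.log H := by
      apply div_le_self b3
      have : (3 : ℝ) ≤ (Kk H : ℝ) := by exact_mod_cast b2
      linarith
    have c2 : Real.log H ≤ Real.log T := Real.log_le_log (by linarith) hHT2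
    have c3 : Real.log T ≤ Real.log T ^ A := by
      have := Real.rpow_le_rpow_of_exponent_le t1 (show (1 : ℝ) ≤ A by linarith)
      rwa [Real.rpow_one] at this
    linarith
  refine ⟨hzy, fun α => ?_⟩
  have hyb : ((zA A T : ℕ) : ℝ) ≤ Real.log T ^ A := by
    unfold zA
    exact Nat.floor_le (Real.rpow_nonneg (by linarith) _)
  generalize hyy : zA A T = y at *
  generalize hzz : zz H = z at *
  generalize hKK : Kk H = K at *
  have hy1 : 1 ≤ y := le_trans hz1 hzy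
  have hy3 : (y : ℝ) ^ 3 ≤ Real.log T ^ (3 * A) := by
    have e1 : (y : ℝ) ^ 3 ≤ (Real.log T ^ A) ^ 3 := pow_le_pow_left₀ (Nat.cast_nonneg _) hyb 3
    have e2 : (Real.log T ^ A) ^ 3 = Real.log T ^ (3 * A) := by
      rw [← Real.rpow_natCast, ← Real.rpow_mul (by linarith)]
      congr 1
      push_cast
      ring
    rw [← e2]
    exact e1
  have hT34 : T ^ (1 / 4 : ℝ) * T ^ (3 / 4 : ℝ) = T := by
    rw [← Real.rpow_add hT0]
    norm_num
  have herr : (4 : ℝ) ^ (K * z) * (2 * K + 1) ^ z * (y : ℝ) ^ 3 ≤ κ * η ^ 2 / 400 * T := by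
    calc (4 : ℝ) ^ (K * z) * (2 * K + 1) ^ z * (y : ℝ) ^ 3
        ≤ T ^ (1 / 4 : ℝ) * (κ * η ^ 2 / 400 * T ^ (3 / 4 : ℝ)) :=
          mul_le_mul hE (le_trans hy3 t4) (by positivity) (Real.rpow_nonneg hT0.le _)
      _ = κ * η ^ 2 / 400 * (T ^ (1 / 4 : ℝ) * T ^ (3 / 4 : ℝ)) := by ring
      _ = κ * η ^ 2 / 400 * T := by rw [hT34]
  have hG0 : ∀ j φ, 0 ≤ Gj j y z K α φ := fun j φ =>
    mul_nonneg (wt_nonneg h1 y z K hK α φ) (sq_nonneg _)
  have hca : Continuous fun t => Gj 0 y z K α (lin y t) := (Gj_cont 0 y z K α).comp (lin_cont y)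
  have hcb : Continuous fun t => Gj 1 y z K α (lin y t) := (Gj_cont 1 y z K α).comp (lin_cont y)
  have hint : ∀ j : ℕ, j ≤ 1 → ∫ t in T..(2 * T), Gj j y z K α (lin y t) ≤
      T * s + 2 * (s * T) := by
    intro j hj
    have e1 := h3 y z K j α T hK hj hy1 hT0
    have e2 := lowt_sum C hC j hj y z hz1
    have e3 : ∫ t in T..(2 * T), Gj j y z K α (lin y t) =
        ∫ t in T..(2 * T), ww z K α t * ‖tl j y z (lin y t)‖ ^ 2 := by
      refine intervalIntegral.integral_congr fun t _ => ?_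
      show Gj j y z K α (lin y t) = _
      unfold Gj
      rw [wt_lin y z K α t hzy]
    rw [e3]
    refine le_trans e1 ?_
    have e4 : 2 * (4 : ℝ) ^ (K * z) * (2 * K + 1) ^ z * (y : ℝ) ^ 3 =
        2 * ((4 : ℝ) ^ (K * z) * (2 * K + 1) ^ z * (y : ℝ) ^ 3) := by ring
    rw [e4, hs]
    have e5 := mul_le_mul_of_nonneg_left (le_trans e2 hsm) hT0.le
    rw [hs] at e5
    linarith
  have hc0 : 0 < η ^ 2 * H / 4 := by
    have : 0 < H := by linarith
    positivity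
  have hH2T : H + 2 ≤ T := by nlinarith
  obtain ⟨E, hE1, hE2, hE3⟩ := h5 (fun t => Gj 0 y z K α (lin y t) + Gj 1 y z K α (lin y t)) H
    (η ^ 2 * H / 4) T (by linarith) hc0 hH2T
    ((hca.add hcb).continuousOn.integrableOn_Icc)
    (fun t => add_nonneg (hG0 0 _) (hG0 1 _))
  refine ⟨E, hE1, ?_, fun u hu huE => ?_⟩
  · refine le_trans hE2 ?_
    have i3 : ∫ t in T..(2 * T), (Gj 0 y z K α (lin y t) + Gj 1 y z K α (lin y t)) ≤
        6 * (T * s) := by
      rw [intervalIntegral.integral_add (hca.intervalIntegrable _ _) (hcb.intervalIntegrable _ _)]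
      have j1 := hint 0 (by norm_num)
      have j2 := hint 1 le_rfl
      linarith
    have i4 : (H + 2) / (η ^ 2 * H / 4) ≤ 12 / η ^ 2 := by
      rw [div_le_div_iff₀ hc0 (by positivity)]
      have : 0 < η ^ 2 := by positivity
      nlinarith
    have i5 : 0 ≤ (H + 2) / (η ^ 2 * H / 4) := div_nonneg (by linarith) hc0.le
    have i6 : (H + 2) * (1 + (∫ t in T..(2 * T),
        (Gj 0 y z K α (lin y t) + Gj 1 y z K α (lin y t))) / (η ^ 2 * H / 4)) =
        (H + 2) + (H + 2) / (η ^ 2 * H / 4) * (∫ t in T..(2 * T),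
        (Gj 0 y z K α (lin y t) + Gj 1 y z K α (lin y t))) := by ring
    rw [i6]
    have i7 : (H + 2) / (η ^ 2 * H / 4) * (∫ t in T..(2 * T),
        (Gj 0 y z K α (lin y t) + Gj 1 y z K α (lin y t))) ≤ 72 / 400 * (κ * T) := by
      calc (H + 2) / (η ^ 2 * H / 4) * (∫ t in T..(2 * T),
            (Gj 0 y z K α (lin y t) + Gj 1 y z K α (lin y t)))
          ≤ (H + 2) / (η ^ 2 * H / 4) * (6 * (T * s)) := mul_le_mul_of_nonneg_left i3 i5
        _ ≤ 12 / η ^ 2 * (6 * (T * s)) := mul_le_mul_of_nonneg_right i4 (by positivity)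
        _ = 72 / 400 * (κ * T) := by rw [hs]; field_simp; ring
    have i8 : H + 2 ≤ 1 / 4 * (κ * T) := by
      have k1 : 12 ≤ κ * T ^ (1 / 2 : ℝ) := by
        rw [div_le_iff₀ hκ] at t2
        linarith
      have k2 : 12 * T ^ (1 / 2 : ℝ) ≤ κ * T := by
        have := mul_le_mul_of_nonneg_right k1 (show 0 ≤ T ^ (1 / 2 : ℝ) by linarith)
        rw [mul_assoc, hT12] at this
        exact this
      linarith
    have i9 : 0 < κ * T := mul_pos hκ hT0
    linarith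
  · obtain ⟨_, _, i1⟩ := hE3 u hu huE
    have i0 := hLB H hHH1 u α
    rw [hzz, hKK] at i0
    by_contra hcon
    push Not at hcon
    have hcf : Continuous fun t =>
        (Gj 0 y z K α (lin y t) + Gj 1 y z K α (lin y t)) := hca.add hcb
    have i2 : ∫ t in u..(u + H), ww z K α t *
        (1 - D1 z α t / η - D2 z α t / (η * Real.log z)) ≤
        ∫ t in u..(u + H), (Gj 0 y z K α (lin y t) + Gj 1 y z K α (lin y t)) / η ^ 2 := by
      refine intervalIntegral.integral_mono_on (by linarith) ?_ ?_ fun t ht => ?_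
      · refine Continuous.intervalIntegrable ?_ _ _
        exact (ww_cont z K α).mul ((continuous_const.sub ((D1_cont z α).div_const _)).sub
          ((D2_cont z α).div_const _))
      · exact (hcf.div_const _).intervalIntegrable _ _
      · rw [Gj_lin y z K α t hzy]
        refine pointwise η _ _ _ _ _ _ hη0 hL ?_ (D1_nonneg z α t) (D2_nonneg z α t)
          (norm_nonneg _) (norm_nonneg _) ?_
        · rw [← wt_lin y z K α t hzy]
          exact wt_nonneg h1 y z K hK α _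
        · rintro ⟨q1, q2, q3, q4⟩
          exact absurd q4 (not_le.2 (hcon t ht q1 q2 q3))
    have i3 : ∫ t in u..(u + H), (Gj 0 y z K α (lin y t) + Gj 1 y z K α (lin y t)) ≤
        ∫ t in (u - 1)..(u + H + 1), (Gj 0 y z K α (lin y t) + Gj 1 y z K α (lin y t)) := by
      refine intervalIntegral.integral_mono_interval (by linarith) (by linarith) (by linarith)
        ?_ (hcf.intervalIntegrable _ _)
      exact Filter.Eventually.of_forall fun t => add_nonneg (hG0 0 _) (hG0 1 _)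
    rw [intervalIntegral.integral_div] at i2
    have i4 : (∫ t in u..(u + H), (Gj 0 y z K α (lin y t) + Gj 1 y z K α (lin y t))) / η ^ 2 ≤
        H / 4 := by
      rw [div_le_iff₀ (by positivity)]
      have : H / 4 * η ^ 2 = η ^ 2 * H / 4 := by ring
      rw [this]
      exact le_trans i3 i1
    linarith

end Pool.Agent.Helper44.SJ
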